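import Pool.Agent.AT2.Stmts
import Pool.Agent.Helper24_AT3.DVS
import Pool.Agent.Helper2_K9.PUG
import Pool.Agent.Helper6_PP.Nco

/-!
# Squad AT2, row DZA: the defect group modulo `O_ℓ(G)`
-/

open scoped BigOperators

noncomputable section

namespace Pool.Agent.PP.T2.H24

open Pool.Agent.Helper51_AWC Pool.Agent.Helper79_WRA Pool.Agent.PP Pool.Agent.PP.KF
open Pool.Agent.PP.K9 Pool.Agent.PP.K9.H97 Pool.Agent.PP.H75 Pool.Agent.PP.T3
open Pool.Agent.Helper98_CC

attribute [local instance] Ideal.Quotient.field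

/-- a defect group in the sense of `IsDef` is a good `ℓ`-subgroup of maximal order -/
theorem tp_of_isDef {ℓ : ℕ} [Fact ℓ.Prime] {M : Ideal (integralClosure ℤ ℂ)} [M.IsMaximal]
    (hM : (ℓ : integralClosure ℤ ℂ) ∈ M) {G : Type} [Group G] [Finite G] {e : G → FF M}
    (he : IsBlk e) {χ : G → ℂ} (hχ : χ ∈ Irr G) (h1 : res M e χ = 1) {D : Subgroup G}
    (hD : ML.IsDef ℓ M χ D) : Tp ℓ e D := by
  -- a good subgroup of maximal order
  have hne : {Q : Subgroup G | IsPGroup ℓ Q ∧ Gd e Q}.Nonempty := by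
    refine ⟨⊥, IsPGroup.of_bot, ?_⟩
    obtain ⟨z, hz⟩ : ∃ z, e z ≠ 0 := by
      by_contra hcon
      push Not at hcon
      exact he.2.1 (funext hcon)
    refine ⟨z, ?_, hz⟩
    rw [Subgroup.mem_centralizer_iff]
    intro x hx
    have hx1 : x = 1 := hx
    rw [hx1, one_mul, mul_one]
  obtain ⟨V, hV, hmax⟩ := Set.exists_max_image {Q : Subgroup G | IsPGroup ℓ Q ∧ Gd e Q}
    (fun Q => Nat.card Q) (Set.toFinite _) hne
  have hTp : Tp ℓ e V := ⟨hV.1, hV.2, fun Q h2 h3 => hmax Q ⟨h2, h3⟩⟩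
  have hVd := T3.H24.isDef_of_tp hM he hTp hχ h1
  have pconj : ∀ (g : G) (Q : Subgroup G), IsPGroup ℓ Q → IsPGroup ℓ (conjS g Q) := by
    intro g Q hQ
    exact hQ.of_equiv (Q.equivMapOfInjective (MulAut.conj g).toMonoidHom (MulAut.conj g).injective)
  have hcen : ∀ (g : G) (Q : Subgroup G) (y : G), (∀ d ∈ Q, g * d * g⁻¹ * y = y * (g * d * g⁻¹)) →
      conjS g Q ≤ Subgroup.centralizer ({y} : Set G) := by
    intro g Q y h x hx
    rw [mem_conjS] at hx
    rw [Subgroup.mem_centralizer_singleton_iff]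
    have h2 := h _ hx
    have h3 : g * (g⁻¹ * x * g) * g⁻¹ = x := by group
    rwa [h3] at h2
  obtain ⟨yD, hyD1, hyD2, hyD3⟩ := hD.2.1
  obtain ⟨yV, hyV1, hyV2, hyV3⟩ := hVd.2.1
  obtain ⟨g, hg⟩ := hD.2.2 yV hyV1
  obtain ⟨g', hg'⟩ := hVd.2.2 yD hyD1
  obtain ⟨c, -, hc⟩ := K9.H69.conj_le hyV2 (hcen g D yV hg) hVd.1 hyV3 (pconj g D hD.1)
  obtain ⟨c', -, hc'⟩ := K9.H69.conj_le hyD2 (hcen g' V yD hg') hD.1 hyD3 (pconj g' V hVd.1)
  have hle1 : Nat.card D ≤ Nat.card V := by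
    have := Nat.card_le_card_of_injective (Subgroup.inclusion hc) (Subgroup.inclusion_injective hc)
    rwa [K9.H69.card_conj, K9.H69.card_conj] at this
  have hle2 : Nat.card V ≤ Nat.card D := by
    have := Nat.card_le_card_of_injective (Subgroup.inclusion hc')
      (Subgroup.inclusion_injective hc')
    rwa [K9.H69.card_conj, K9.H69.card_conj] at this
  have heq : conjS g D = conjS c V :=
    Subgroup.eq_of_le_of_card_ge hc (by rw [K9.H69.card_conj, K9.H69.card_conj]; exact hle2)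
  refine ⟨hD.1, ?_, ?_⟩
  · obtain ⟨z, hz, hz0⟩ := hTp.gd
    refine ⟨g⁻¹ * c * z * (g⁻¹ * c)⁻¹, ?_, ?_⟩
    · rw [Subgroup.mem_centralizer_iff]
      intro d hd
      have h2 : g * d * g⁻¹ ∈ conjS c V := by
        rw [← heq, mem_conjS]
        have h3 : g⁻¹ * (g * d * g⁻¹) * g = d := by group
        rwa [h3]
      rw [mem_conjS] at h2
      have h4 := Subgroup.mem_centralizer_iff.1 hz _ h2
      calc d * (g⁻¹ * c * z * (g⁻¹ * c)⁻¹)
          = g⁻¹ * c * (c⁻¹ * (g * d * g⁻¹) * c * z) * (g⁻¹ * c)⁻¹ := by group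
        _ = g⁻¹ * c * (z * (c⁻¹ * (g * d * g⁻¹) * c)) * (g⁻¹ * c)⁻¹ := by rw [h4]
        _ = g⁻¹ * c * z * (g⁻¹ * c)⁻¹ * d := by group
    · rw [he.1.1]
      exact hz0
  · intro Q h2 h3
    exact (hmax Q ⟨h2, h3⟩).trans hle2

theorem dza (hPsg : PsgStmt) : DzaStmt := by
  intro ℓ _ M _ hM G _ _ hcen χ hχ D hD hDc e he h1 A _ _ p hp hker
  have hℓ : ℓ.Prime := Fact.out
  have hF : GoodF ℓ (FF M) := H50.fld ℓ hℓ M hM
  have hZ : IsPGroup ℓ (opCore ℓ G) := H75.opCore_isPGroup hℓ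
  have hTp := tp_of_isDef hM he hχ h1 hD
  have hf : IsBlk (push p e) := hPsg ℓ (FF M) hF G A p hp (by rw [hker]; exact hcen)
    (by rw [hker]; exact hZ) e he
  have hZD : opCore ℓ G ≤ D := by
    have hn : (opCore ℓ G).Normal := H75.opCore_normal (A := G) ℓ
    have h2 : IsPGroup ℓ (opCore ℓ G ⊔ D : Subgroup G) := hZ.to_sup_of_normal_left hTp.pg
    obtain ⟨z, hz, hz0⟩ := hTp.gd
    have h3 : Gd e (opCore ℓ G ⊔ D) := by
      refine ⟨z, ?_, hz0⟩
      have h4 : opCore ℓ G ⊔ D ≤ Subgroup.centralizer ({z} : Set G) := by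
        rw [sup_le_iff]
        constructor
        · intro x hx
          rw [Subgroup.mem_centralizer_singleton_iff]
          exact (Subgroup.mem_center_iff.1 (hcen hx) z).symm
        · intro x hx
          rw [Subgroup.mem_centralizer_singleton_iff]
          exact Subgroup.mem_centralizer_iff.1 hz x hx
      rw [Subgroup.mem_centralizer_iff]
      intro x hx
      exact Subgroup.mem_centralizer_singleton_iff.1 (h4 hx)
    have h5 := Subgroup.eq_of_le_of_card_ge (le_sup_right : D ≤ opCore ℓ G ⊔ D) (hTp.mx _ h2 h3)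
    rw [h5]
    exact le_sup_left
  have hcard : Nat.card (D.map p) * Nat.card (opCore ℓ G) = Nat.card D := by
    rw [H6.card_map p D, hker, inf_eq_right.2 hZD]
  refine ⟨hf, hZD, hcard, ?_⟩
  have hkp : IsPGroup ℓ p.ker := by rw [hker]; exact hZ
  have hTpf : Tp ℓ (push p e) (D.map p) := by
    refine ⟨hTp.pg.map p, ?_, ?_⟩
    · exact (_root_.Pool.Agent.PP.K9.H02.pug ℓ (FF M) hF G A p hp hkp e he.1 D (by rw [hker]; exact hZD) hTp.pg).1 hTp.gd
    · intro Q' hQ' hQ'g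
      have h2 : IsPGroup ℓ (Q'.comap p) := hQ'.comap_of_ker_isPGroup p hkp
      have h3 : p.ker ≤ Q'.comap p := fun x hx => by
        rw [Subgroup.mem_comap, MonoidHom.mem_ker.1 hx]
        exact Q'.one_mem
      have h4 : (Q'.comap p).map p = Q' := Subgroup.map_comap_eq_self_of_surjective hp Q'
      have h5 := (_root_.Pool.Agent.PP.K9.H02.pug ℓ (FF M) hF G A p hp hkp e he.1 (Q'.comap p) h3 h2).2
        (by rw [h4]; exact hQ'g)
      have h6 := hTp.mx _ h2 h5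
      rw [H75.card_comap hp Q', hker, ← hcard, mul_comm] at h6
      exact Nat.le_of_mul_le_mul_right h6 Nat.card_pos
  -- the block of the centraliser
  have hbr : br (D.map p) (push p e) ≠ 0 := K9.H69.gd_br hTpf.gd
  obtain ⟨γ, hγ1, hγ2, hγ3⟩ := H46.exists_blk hbr (Subgroup.centralizer ((D.map p : Subgroup A) : Set A))
  have hBx : Bx (Subgroup.centralizer ((D.map p : Subgroup A) : Set A)) γ := ⟨hγ1, hγ2⟩
  have hIx : Ix (Subgroup.centralizer ((D.map p : Subgroup A) : Set A))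
      (br (D.map p) (push p e)) :=
    ⟨fun x hx => H66.br_of_not_mem hx,
      (H20.brm ℓ (FF M) hF A (D.map p) _ hTpf.pg le_rfl (K9.H69.cent_le_norm _)).2.2 _ hf.1⟩
  refine ⟨γ, hf, hTpf, ?_, hBx, ?_⟩
  · rintro _ ⟨a, ha, rfl⟩ _ ⟨b, hb, rfl⟩
    have h2 := hDc a ha b hb
    rw [← hker, MonoidHom.mem_ker, map_mul, map_mul, map_mul, map_inv, map_inv] at h2
    rw [mul_inv_eq_one, mul_inv_eq_iff_eq_mul] at h2
    exact h2
  · rw [hIx.comm hBx.ix]
    rcases hBx.dich' hIx with h2 | h2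
    · exact h2
    · exfalso
      apply hγ3
      rw [hIx.comm hBx.ix, h2]

end Pool.Agent.PP.T2.H24
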